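import Pool.Agent.Helper11.RL.Defs
import Pool.Agent.Helper5.RM.GEO

/-!
# Project RL (MP_b6b996_nt), blocks D and E: orthogonality on the grid, and the sum over an arc
-/

set_option autoImplicit false

namespace Pool.Agent.Helper11.RL

open Finset Pool.Agent.Helper5.RM

lemma re_e (x : ℝ) : (e x).re = Real.cos (2 * Real.pi * x) := by
  unfold e
  have h : (2 * Real.pi * x * Complex.I : ℂ) = ((2 * Real.pi * x : ℝ) : ℂ) * Complex.I := by push_cast; ring
  rw [h, Complex.exp_ofReal_mul_I_re]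

lemma e_ne_one {x : ℝ} (h : ∀ n : ℤ, x ≠ n) : e x ≠ 1 := by
  intro h1
  unfold e at h1
  rw [Complex.exp_eq_one_iff] at h1
  obtain ⟨n, hn⟩ := h1
  apply h n
  have h2 : (2 * Real.pi * Complex.I : ℂ) * (x - n) = 0 := by linear_combination hn
  have h3 : (2 * Real.pi * Complex.I : ℂ) ≠ 0 := Complex.two_pi_I_ne_zero
  have h4 := (mul_eq_zero.1 h2).resolve_left h3
  have h5 : (x : ℂ) = ((n : ℝ) : ℂ) := by push_cast; linear_combination h4
  exact_mod_cast h5

lemma e_pow (x : ℝ) (j : ℕ) : e (j * x) = e x ^ j := by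
  induction j with
  | zero => simp [e_zero]
  | succ j ih =>
    have : ((j + 1 : ℕ) : ℝ) * x = j * x + x := by push_cast; ring
    rw [this, e_add, ih, pow_succ]

lemma sum_cos_zero {J : ℕ} {h : ℤ} (hJ : 0 < J) (hh : ¬ (J : ℤ) ∣ h) :
    ∑ j ∈ range J, Real.cos (2 * Real.pi * (h * ((j : ℝ) / J))) = 0 := by
  have hJr : (J : ℝ) ≠ 0 := by positivity
  have h1 : ∀ j ∈ range J, Real.cos (2 * Real.pi * (h * ((j : ℝ) / J))) = (e ((h : ℝ) / J) ^ j).re := by
    intro j _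
    rw [← e_pow, re_e]
    congr 2
    ring
  rw [Finset.sum_congr rfl h1, ← Complex.re_sum]
  have hne : e ((h : ℝ) / J) ≠ 1 := by
    apply e_ne_one
    intro n hn
    apply hh
    refine ⟨n, ?_⟩
    have : (h : ℝ) = J * n := by
      field_simp at hn
      linarith
    exact_mod_cast this
  have h2 := geom_sum_eq hne J
  rw [h2, ← e_pow]
  have h3 : (J : ℝ) * ((h : ℝ) / J) = (h : ℝ) := by field_simp
  rw [h3, e_int]
  simp

lemma sum_cos_arc {J : ℕ} {h : ℤ} (h0 : h ≠ 0) (h2 : 2 * |h| ≤ J) (j0 m : ℕ) :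
    |∑ j ∈ Ico j0 (j0 + m), Real.cos (2 * Real.pi * (h * ((j : ℝ) / J)))| ≤ (J : ℝ) / (2 * |(h : ℝ)|) := by
  have habs : (0 : ℝ) < |(h : ℝ)| := abs_pos.2 (by exact_mod_cast h0)
  have h2r : 2 * |(h : ℝ)| ≤ J := by exact_mod_cast h2
  have hJ : (0 : ℝ) < J := by linarith
  rcases Nat.eq_zero_or_pos m with hm | hm
  · subst hm
    simp only [add_zero, Finset.Ico_self, Finset.sum_empty, abs_zero]
    positivity
  have h1 : ∀ j ∈ Icc j0 (j0 + m - 1), Real.cos (2 * Real.pi * (h * ((j : ℝ) / J))) = (e (j * ((h : ℝ) / J))).re := by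
    intro j _
    rw [re_e]
    congr 2
    ring
  have h3 : Ico j0 (j0 + m) = Icc j0 (j0 + m - 1) := by
    ext j
    simp only [Finset.mem_Ico, Finset.mem_Icc]
    omega
  rw [h3, Finset.sum_congr rfl h1, ← Complex.re_sum]
  refine (Complex.abs_re_le_norm _).trans ?_
  refine (geo j0 (j0 + m - 1) (m : ℝ) ((h : ℝ) / J) (by positivity) ?_).trans ?_
  · have : ((j0 + m - 1 : ℕ) : ℝ) = j0 + m - 1 := by
      rw [Nat.cast_sub (by omega)]
      push_cast
      ring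
    rw [this]
    linarith
  · have hnd : |(h : ℝ)| / J ≤ nd ((h : ℝ) / J) := by
      unfold nd
      have hr : round ((h : ℝ) / J) = 0 ∨ |(h : ℝ) / J - round ((h : ℝ) / J)| ≥ 1 / 2 := by
        by_cases hr0 : round ((h : ℝ) / J) = 0
        · exact Or.inl hr0
        · right
          have h4 : (1 : ℝ) ≤ |(round ((h : ℝ) / J) : ℝ)| := by
            have : (1 : ℤ) ≤ |round ((h : ℝ) / J)| := Int.one_le_abs hr0
            exact_mod_cast this
          have h5 : |(h : ℝ) / J| ≤ 1 / 2 := by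
            rw [abs_div, abs_of_pos hJ, div_le_div_iff₀ hJ (by norm_num)]
            linarith
          have h6 := abs_sub_abs_le_abs_sub (round ((h : ℝ) / J) : ℝ) ((h : ℝ) / J)
          rw [abs_sub_comm] at h6
          linarith
      rcases hr with hr | hr
      · rw [hr]
        simp only [Int.cast_zero, sub_zero]
        rw [abs_div, abs_of_pos hJ]
      · refine le_trans ?_ hr
        rw [div_le_div_iff₀ hJ (by norm_num)]
        linarith
    refine (mn_le_of_nd (by positivity) hnd).trans (le_of_eq ?_)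
    field_simp

lemma cos_mul_cos' (a b : ℤ) (x : ℝ) :
    Real.cos (2 * Real.pi * (a * x)) * Real.cos (2 * Real.pi * (b * x)) =
      (Real.cos (2 * Real.pi * ((a - b : ℤ) * x)) + Real.cos (2 * Real.pi * ((a + b : ℤ) * x))) / 2 := by
  have h1 : 2 * Real.pi * ((a - b : ℤ) * x) = 2 * Real.pi * (a * x) - 2 * Real.pi * (b * x) := by push_cast; ring
  have h2 : 2 * Real.pi * ((a + b : ℤ) * x) = 2 * Real.pi * (a * x) + 2 * Real.pi * (b * x) := by push_cast; ring
  rw [h1, h2, Real.cos_sub, Real.cos_add]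
  ring

/-- the double sum -/
lemma ap_mul (N : ℕ) (T : Finset ℕ) (p p' : ℕ) (A : Finset ℕ) (x : ℕ → ℝ) :
    ∑ j ∈ A, ap N T p (x j) * ap N T p' (x j) =
      ∑ m ∈ Icc 1 (N / p), ∑ m' ∈ Icc 1 (N / p'), rf T m * rf T m' *
        ((∑ j ∈ A, Real.cos (2 * Real.pi * ((((p * m : ℕ) : ℤ) - ((p' * m' : ℕ) : ℤ) : ℤ) * x j)) +
          ∑ j ∈ A, Real.cos (2 * Real.pi * ((((p * m : ℕ) : ℤ) + ((p' * m' : ℕ) : ℤ) : ℤ) * x j))) / 2) := by
  have h1 : ∀ j ∈ A, ap N T p (x j) * ap N T p' (x j) =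
      ∑ m ∈ Icc 1 (N / p), ∑ m' ∈ Icc 1 (N / p'), rf T m * rf T m' *
        ((Real.cos (2 * Real.pi * ((((p * m : ℕ) : ℤ) - ((p' * m' : ℕ) : ℤ) : ℤ) * x j)) +
          Real.cos (2 * Real.pi * ((((p * m : ℕ) : ℤ) + ((p' * m' : ℕ) : ℤ) : ℤ) * x j))) / 2) := by
    intro j _
    unfold ap
    rw [Finset.sum_mul_sum]
    refine Finset.sum_congr rfl fun m _ => Finset.sum_congr rfl fun m' _ => ?_
    rw [← cos_mul_cos']
    push_cast
    ring
  rw [Finset.sum_congr rfl h1, Finset.sum_comm]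
  refine Finset.sum_congr rfl fun m _ => ?_
  rw [Finset.sum_comm]
  refine Finset.sum_congr rfl fun m' _ => ?_
  rw [← Finset.mul_sum, ← Finset.sum_div, Finset.sum_add_distrib]

lemma mem_P1 {N K p : ℕ} : p ∈ P1 N K ↔ p.Prime ∧ p ≤ N ∧ N < K * p := by
  unfold P1
  rw [Finset.mem_filter, mem_PP]
  tauto

lemma div_lt_K {N K p : ℕ} (hp : p ∈ P1 N K) : N / p < K := by
  rw [mem_P1] at hp
  exact Nat.div_lt_of_lt_mul (by rw [mul_comm]; exact hp.2.2)

lemma K_lt {N K p : ℕ} (hK : K * K ≤ N) (hp : p ∈ P1 N K) : K < p := by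
  rw [mem_P1] at hp
  by_contra h
  push Not at h
  have : K * p ≤ K * K := Nat.mul_le_mul_left _ h
  omega

lemma pm_le {N p m : ℕ} (hm : m ∈ Icc 1 (N / p)) : p * m ≤ N := by
  rw [Finset.mem_Icc] at hm
  exact (Nat.mul_le_mul_left _ hm.2).trans (Nat.mul_div_le N p)

lemma not_dvd {J : ℕ} {h : ℤ} (h0 : h ≠ 0) (h1 : |h| < J) : ¬ (J : ℤ) ∣ h := fun hd =>
  h0 (Int.eq_zero_of_abs_lt_dvd hd h1)

theorem ap_orth {N K J : ℕ} (hK : K * K ≤ N) (hJ : 4 * N ≤ J) (hN : 1 ≤ N) (T : Finset ℕ) {p p' : ℕ}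
    (hp : p ∈ P1 N K) (hp' : p' ∈ P1 N K) (hne : p ≠ p') :
    ∑ j ∈ range J, ap N T p ((j : ℝ) / J) * ap N T p' ((j : ℝ) / J) = 0 := by
  rw [ap_mul N T p p' (range J) (fun j => (j : ℝ) / J)]
  refine Finset.sum_eq_zero fun m hm => Finset.sum_eq_zero fun m' hm' => ?_
  have h1 := pm_le hm
  have h2 := pm_le hm'
  have hm1 := (Finset.mem_Icc.1 hm).1
  have hm1' := (Finset.mem_Icc.1 hm').1
  have hpp := (mem_P1.1 hp).1
  have hpp' := (mem_P1.1 hp').1
  have hpos : 0 < p * m := Nat.mul_pos hpp.pos hm1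
  have hpos' : 0 < p' * m' := Nat.mul_pos hpp'.pos hm1'
  have hne2 : p * m ≠ p' * m' := by
    intro h
    have hd : p ∣ p' * m' := ⟨m, h.symm⟩
    rcases (Nat.Prime.dvd_mul hpp).1 hd with hd | hd
    · exact hne ((Nat.prime_dvd_prime_iff_eq hpp hpp').1 hd)
    · have h3 := Nat.le_of_dvd hm1' hd
      have h4 := div_lt_K hp'
      have h5 := K_lt hK hp
      have h6 := (Finset.mem_Icc.1 hm').2
      omega
  rw [sum_cos_zero (by omega) (not_dvd (by omega) (by rw [abs_lt]; constructor <;> omega)),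
    sum_cos_zero (by omega) (not_dvd (by omega) (by rw [abs_lt]; constructor <;> omega))]
  simp

lemma rf_sq_le (T : Finset ℕ) (m : ℕ) : rf T m * rf T m ≤ 1 := by
  have := abs_rf_le T m
  have h := abs_mul_abs_self (rf T m)
  nlinarith [abs_nonneg (rf T m)]

theorem ap_norm {N K J : ℕ} (hJ : 4 * N ≤ J) (hN : 1 ≤ N) (T : Finset ℕ) {p : ℕ}
    (hp : p ∈ P1 N K) : ∑ j ∈ range J, ap N T p ((j : ℝ) / J) ^ 2 ≤ J * K / 2 := by
  have hpp := (mem_P1.1 hp).1
  have h0 : ∑ j ∈ range J, ap N T p ((j : ℝ) / J) ^ 2 =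
      ∑ j ∈ range J, ap N T p ((j : ℝ) / J) * ap N T p ((j : ℝ) / J) :=
    Finset.sum_congr rfl fun j _ => by rw [sq]
  rw [h0, ap_mul N T p p (range J) (fun j => (j : ℝ) / J)]
  have h1 : ∀ m ∈ Icc 1 (N / p), ∑ m' ∈ Icc 1 (N / p), rf T m * rf T m' *
        ((∑ j ∈ range J, Real.cos (2 * Real.pi * ((((p * m : ℕ) : ℤ) - ((p * m' : ℕ) : ℤ) : ℤ) * ((j : ℝ) / J))) +
          ∑ j ∈ range J, Real.cos (2 * Real.pi * ((((p * m : ℕ) : ℤ) + ((p * m' : ℕ) : ℤ) : ℤ) * ((j : ℝ) / J)))) / 2)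
          ≤ J / 2 := by
    intro m hm
    have hm1 := (Finset.mem_Icc.1 hm).1
    have hA := pm_le hm
    have hpos : 0 < p * m := Nat.mul_pos hpp.pos hm1
    rw [Finset.sum_eq_single_of_mem m hm]
    · rw [sub_self, sum_cos_zero (J := J) (h := ((p * m : ℕ) : ℤ) + ((p * m : ℕ) : ℤ)) (by omega)
        (not_dvd (by omega) (by rw [abs_lt]; constructor <;> omega))]
      simp only [Int.cast_zero, zero_mul, mul_zero, Real.cos_zero, Finset.sum_const, Finset.card_range,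
        nsmul_eq_mul, mul_one, add_zero]
      have := rf_sq_le T m
      have hJ0 : (0 : ℝ) ≤ J := by positivity
      nlinarith
    · intro m' hm' hne
      have hm1' := (Finset.mem_Icc.1 hm').1
      have hB := pm_le hm'
      have hpos' : 0 < p * m' := Nat.mul_pos hpp.pos hm1'
      have hne2 : p * m ≠ p * m' := fun h => hne (Nat.eq_of_mul_eq_mul_left hpp.pos h).symm
      rw [sum_cos_zero (by omega) (not_dvd (by omega) (by rw [abs_lt]; constructor <;> omega)),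
        sum_cos_zero (by omega) (not_dvd (by omega) (by rw [abs_lt]; constructor <;> omega))]
      simp
  refine (Finset.sum_le_sum h1).trans ?_
  rw [Finset.sum_const, Nat.card_Icc, nsmul_eq_mul]
  have h2 : ((N / p + 1 - 1 : ℕ) : ℝ) ≤ K := by
    have := div_lt_K hp
    exact_mod_cast (by omega : N / p + 1 - 1 ≤ K)
  have hJ0 : (0 : ℝ) ≤ J := by positivity
  nlinarith

theorem ap_abs {N K : ℕ} (T : Finset ℕ) {p : ℕ} (hp : p ∈ P1 N K) (x : ℝ) : |ap N T p x| ≤ K := by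
  unfold ap
  refine (Finset.abs_sum_le_sum_abs _ _).trans ?_
  have h1 : ∀ m ∈ Icc 1 (N / p), |rf T m * Real.cos (2 * Real.pi * ((p * m : ℕ) * x))| ≤ 1 := by
    intro m _
    rw [abs_mul]
    have h2 := abs_rf_le T m
    have h3 := Real.abs_cos_le_one (2 * Real.pi * ((p * m : ℕ) * x))
    nlinarith [abs_nonneg (rf T m), abs_nonneg (Real.cos (2 * Real.pi * ((p * m : ℕ) * x)))]
  refine (Finset.sum_le_sum h1).trans ?_
  rw [Finset.sum_const, Nat.card_Icc, nsmul_eq_mul, mul_one]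
  have := div_lt_K hp
  exact_mod_cast (by omega : N / p + 1 - 1 ≤ K)

lemma sum_rf_sq (T : Finset ℕ) (y : ℕ) : ∑ m ∈ Icc 1 y, rf T m * rf T m = Qf y := by
  unfold Qf
  rw [Finset.card_filter]
  push_cast
  refine Finset.sum_congr rfl fun m _ => ?_
  split_ifs with h
  · exact rf_mul_self h
  · rw [rf_not h, mul_zero]

theorem ap_arc {N K J : ℕ} (hJ : 4 * N ≤ J) (hN : 1 ≤ N) (T : Finset ℕ) {p : ℕ} (hp : p ∈ P1 N K)
    (j0 m : ℕ) :
    (m : ℝ) / 2 * Qf (N / p) - K ^ 3 * J / (2 * N) ≤ ∑ j ∈ Ico j0 (j0 + m), ap N T p ((j : ℝ) / J) ^ 2 := by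
  have hpp := (mem_P1.1 hp).1
  have hp0 : (0 : ℝ) < p := by exact_mod_cast hpp.pos
  have hJ0 : (0 : ℝ) < J := by exact_mod_cast (by omega : 0 < J)
  have hN0 : (0 : ℝ) < N := by exact_mod_cast hN
  have h0 : ∑ j ∈ Ico j0 (j0 + m), ap N T p ((j : ℝ) / J) ^ 2 =
      ∑ j ∈ Ico j0 (j0 + m), ap N T p ((j : ℝ) / J) * ap N T p ((j : ℝ) / J) :=
    Finset.sum_congr rfl fun j _ => by rw [sq]
  rw [h0, ap_mul N T p p (Ico j0 (j0 + m)) (fun j => (j : ℝ) / J)]
  set E : ℝ := (J : ℝ) / (2 * p) with hE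
  have hE0 : 0 ≤ E := by positivity
  -- each term
  have key : ∀ k ∈ Icc 1 (N / p), ∀ k' ∈ Icc 1 (N / p),
      (if k = k' then rf T k * rf T k * ((m : ℝ) / 2) else 0) - E ≤ rf T k * rf T k' *
        ((∑ j ∈ Ico j0 (j0 + m), Real.cos (2 * Real.pi * ((((p * k : ℕ) : ℤ) - ((p * k' : ℕ) : ℤ) : ℤ) * ((j : ℝ) / J))) +
          ∑ j ∈ Ico j0 (j0 + m), Real.cos (2 * Real.pi * ((((p * k : ℕ) : ℤ) + ((p * k' : ℕ) : ℤ) : ℤ) * ((j : ℝ) / J)))) / 2) := by
    intro k hk k' hk'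
    have hk1 := (Finset.mem_Icc.1 hk).1
    have hk1' := (Finset.mem_Icc.1 hk').1
    have hA := pm_le hk
    have hB := pm_le hk'
    have hpos : p ≤ p * k := Nat.le_mul_of_pos_right _ hk1
    have hpos' : p ≤ p * k' := Nat.le_mul_of_pos_right _ hk1'
    have hpp0 := hpp.pos
    have hr : |rf T k * rf T k'| ≤ 1 := by
      rw [abs_mul]
      have h2 := abs_rf_le T k
      have h3 := abs_rf_le T k'
      nlinarith [abs_nonneg (rf T k), abs_nonneg (rf T k')]
    have hs := sum_cos_arc (J := J) (h := ((p * k : ℕ) : ℤ) + ((p * k' : ℕ) : ℤ)) (by omega)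
      (by rw [abs_of_nonneg (by positivity)]; omega) j0 m
    have hs2 : (J : ℝ) / (2 * |((((p * k : ℕ) : ℤ) + ((p * k' : ℕ) : ℤ) : ℤ) : ℝ)|) ≤ E := by
      rw [hE]
      apply div_le_div_of_nonneg_left hJ0.le (by positivity)
      have : (p : ℝ) ≤ |((((p * k : ℕ) : ℤ) + ((p * k' : ℕ) : ℤ) : ℤ) : ℝ)| := by
        refine le_trans ?_ (le_abs_self _)
        exact_mod_cast (by omega : p ≤ p * k + p * k')
      linarith
    have hS := hs.trans hs2
    by_cases hkk : k = k'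
    · subst hkk
      rw [if_pos rfl, sub_self]
      simp only [Int.cast_zero, zero_mul, mul_zero, Real.cos_zero, Finset.sum_const, Nat.card_Ico,
        nsmul_eq_mul, mul_one]
      have hc : ((j0 + m - j0 : ℕ) : ℝ) = m := by
        congr 1
        omega
      rw [hc]
      set C := ∑ j ∈ Ico j0 (j0 + m), Real.cos (2 * Real.pi * ((((p * k : ℕ) : ℤ) + ((p * k : ℕ) : ℤ) : ℤ) * ((j : ℝ) / J)))
      have hC := abs_le.1 hS
      have hr0 : 0 ≤ rf T k * rf T k := mul_self_nonneg _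
      have hr1 := rf_sq_le T k
      nlinarith [mul_le_mul_of_nonneg_left hC.1 hr0]
    · rw [if_neg hkk, zero_sub]
      have hne2 : p * k ≠ p * k' := fun h => hkk (Nat.eq_of_mul_eq_mul_left hpp0 h)
      have hge : (p : ℤ) ≤ |((p * k : ℕ) : ℤ) - ((p * k' : ℕ) : ℤ)| := by
        have h1 : ((p * k : ℕ) : ℤ) - ((p * k' : ℕ) : ℤ) = p * ((k : ℤ) - k') := by push_cast; ring
        rw [h1, abs_mul, abs_of_nonneg (by positivity : (0 : ℤ) ≤ p)]
        have h2 : 1 ≤ |(k : ℤ) - k'| := Int.one_le_abs (by omega)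
        nlinarith [(by positivity : (0 : ℤ) ≤ p)]
      have hd := sum_cos_arc (J := J) (h := ((p * k : ℕ) : ℤ) - ((p * k' : ℕ) : ℤ)) (by omega)
        (by
          have : |((p * k : ℕ) : ℤ) - ((p * k' : ℕ) : ℤ)| ≤ N := by rw [abs_le]; constructor <;> omega
          omega) j0 m
      have hd2 : (J : ℝ) / (2 * |((((p * k : ℕ) : ℤ) - ((p * k' : ℕ) : ℤ) : ℤ) : ℝ)|) ≤ E := by
        rw [hE]
        apply div_le_div_of_nonneg_left hJ0.le (by positivity)
        have : (p : ℝ) ≤ |((((p * k : ℕ) : ℤ) - ((p * k' : ℕ) : ℤ) : ℤ) : ℝ)| := by exact_mod_cast hge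
        linarith
      have hD := hd.trans hd2
      set C := ∑ j ∈ Ico j0 (j0 + m), Real.cos (2 * Real.pi * ((((p * k : ℕ) : ℤ) + ((p * k' : ℕ) : ℤ) : ℤ) * ((j : ℝ) / J)))
      set D := ∑ j ∈ Ico j0 (j0 + m), Real.cos (2 * Real.pi * ((((p * k : ℕ) : ℤ) - ((p * k' : ℕ) : ℤ) : ℤ) * ((j : ℝ) / J)))
      have hDC : |(D + C) / 2| ≤ E := by
        rw [abs_div, abs_two]
        have := abs_add_le D C
        linarith
      have h5 : |rf T k * rf T k' * ((D + C) / 2)| ≤ E := by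
        rw [abs_mul]
        calc |rf T k * rf T k'| * |(D + C) / 2| ≤ 1 * E := mul_le_mul hr hDC (abs_nonneg _) zero_le_one
          _ = E := one_mul E
      exact (abs_le.1 h5).1
  have hsum := Finset.sum_le_sum fun k hk => Finset.sum_le_sum (key k hk)
  refine le_trans ?_ hsum
  have h6 : ∀ k ∈ Icc 1 (N / p), ∑ k' ∈ Icc 1 (N / p), ((if k = k' then rf T k * rf T k * ((m : ℝ) / 2) else 0) - E) =
      rf T k * rf T k * ((m : ℝ) / 2) - (N / p : ℕ) * E := by
    intro k hk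
    rw [Finset.sum_sub_distrib, Finset.sum_ite_eq, if_pos hk, Finset.sum_const, Nat.card_Icc, nsmul_eq_mul]
    congr 2
  rw [Finset.sum_congr rfl h6, Finset.sum_sub_distrib, ← Finset.sum_mul, sum_rf_sq, Finset.sum_const, Nat.card_Icc,
    nsmul_eq_mul]
  have h7 : ((N / p + 1 - 1 : ℕ) : ℝ) = (N / p : ℕ) := by congr 1
  rw [h7]
  have h8 : ((N / p : ℕ) : ℝ) ≤ K := by exact_mod_cast (div_lt_K hp).le
  have h9 : (0 : ℝ) ≤ (N / p : ℕ) := by positivity
  have hK0 : (0 : ℝ) ≤ K := by positivity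
  have h10 : (N : ℝ) ≤ K * p := by exact_mod_cast (mem_P1.1 hp).2.2.le
  have h11 : ((N / p : ℕ) : ℝ) * (((N / p : ℕ) : ℝ) * E) ≤ K * (K * E) :=
    mul_le_mul h8 (mul_le_mul_of_nonneg_right h8 hE0) (by positivity) hK0
  have h12 : K * (K * E) ≤ K ^ 3 * J / (2 * N) := by
    rw [hE]
    have : (K : ℝ) * (K * (J / (2 * p))) = K ^ 2 * J / (2 * p) := by ring
    rw [this, div_le_div_iff₀ (by positivity) (by positivity)]
    have h13 : (K : ℝ) ^ 2 * J * (2 * N) ≤ K ^ 2 * J * (2 * (K * p)) :=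
      mul_le_mul_of_nonneg_left (by linarith) (by positivity)
    refine h13.trans (le_of_eq ?_)
    ring
  linarith

end Pool.Agent.Helper11.RL
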