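import Pool.Agent.Helper96.RL.Orth
import Pool.Agent.Helper11.RL.BC
import Pool.Agent.Helper11.RL.Defs2

/-!
# Project RL+ (MP_b6b996_nt), block H': one block of grid points, arcs of length `N^(-1 + 1/h)`
-/

set_option autoImplicit false

namespace Pool.Agent.Helper11.RL

open Finset Pool.Agent.Helper5.RM

/-- the statement of block G' for the exponent `k` -/
def RieszK (k : ℕ) : Prop := ∀ (S : Finset ℕ) (a : ℕ → ℕ → ℝ) (J : ℕ) (I : Finset ℕ) (_ : I ⊆ range J) (s : ℕ → ℝ)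
    (_ : ∀ j, s j ^ 2 = 1) (K v0 L : ℝ) (_ : 0 < K) (_ : 0 < v0) (_ : 4 * Real.log 2 ≤ L)
    (_ : ∀ p ∈ S, ∀ j, |a p j| ≤ K) (_ : 4 * ((2 * (k : ℝ) - 1) * (L * K ^ 2)) ≤ v0)
    (_ : ∀ p ∈ S, ∀ p' ∈ S, p ≠ p' → ∑ j ∈ range J, a p j * a p' j = 0)
    (_ : ∀ p ∈ S, ∑ j ∈ range J, a p j ^ 2 ≤ J * K / 2)
    (_ : (I.filter (fun j => v0 ≤ ∑ p ∈ S, a p j ^ 2)).Nonempty),
    pr S (fun T => ∀ j ∈ I, s j * ∑ p ∈ S, sg T p * a p j < (L / 4 - Real.log 2) * Real.sqrt (v0 / L)) ≤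
      (2 * J * K * (L / v0) * (2 * (k : ℝ) - 1) * (1 + (2 * (k : ℝ) - 1) * L * Real.exp ((2 * (k : ℝ) - 1) * L)) /
        (I.filter (fun j => v0 ≤ ∑ p ∈ S, a p j ^ 2)).card) ^ k

/-- powers of `y = N^(1/(300 h))` -/
lemma y_pow' {N h : ℕ} (k : ℕ) : ((N : ℝ) ^ (1 / (300 * h) : ℝ)) ^ k = (N : ℝ) ^ ((k : ℝ) / (300 * h)) := by
  rw [← Real.rpow_natCast, ← Real.rpow_mul (by positivity)]
  congr 1
  ring

lemma y_facts' {N h : ℕ} {y : ℝ} (hh : 1 ≤ h) (hy : y = (N : ℝ) ^ (1 / (300 * h) : ℝ)) (hN : 1 ≤ N) (h4 : 4 ≤ y) :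
    y ^ (300 * h) = N ∧ (KK' h N : ℝ) ≤ y ^ 5 ∧ 1 ≤ KK' h N ∧ y ^ 300 / 8 ≤ (mm' h N : ℝ) ∧
      Real.log N = 300 * h * Real.log y := by
  have hN0 : (0 : ℝ) < N := by exact_mod_cast hN
  have hN1 : (1 : ℝ) ≤ N := by exact_mod_cast hN
  have hh0 : (0 : ℝ) < h := by exact_mod_cast hh
  have e300 : y ^ (300 * h) = N := by
    rw [hy, y_pow']
    push_cast
    rw [div_self (by positivity), Real.rpow_one]
  have e5 : y ^ 5 = (N : ℝ) ^ (1 / (60 * h) : ℝ) := by
    rw [hy, y_pow']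
    congr 1
    push_cast
    field_simp
    norm_num
  have e240 : y ^ 300 = (N : ℝ) ^ (1 / h : ℝ) := by
    rw [hy, y_pow']
    congr 1
    push_cast
    field_simp
  have hlog : Real.log N = 300 * h * Real.log y := by
    rw [← e300, Real.log_pow]
    push_cast
    ring
  have hy0 : 0 < y := by linarith
  refine ⟨e300, ?_, ?_, ?_, hlog⟩
  · rw [e5]
    exact Nat.floor_le (by positivity)
  · unfold KK'
    apply Nat.le_floor
    push_cast
    exact Real.one_le_rpow hN1 (by positivity)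
  · have h1 : (N : ℝ) ^ (1 / h : ℝ) / 4 < (mm' h N : ℝ) + 1 := Nat.lt_floor_add_one _
    rw [← e240] at h1
    have h2 : (8 : ℝ) ≤ y ^ 300 := by
      have a1 : (4 : ℝ) ^ 2 ≤ y ^ 2 := pow_le_pow_left₀ (by norm_num) h4 2
      have a2 : y ^ 2 ≤ y ^ 300 := pow_le_pow_right₀ (by linarith) (by norm_num)
      linarith
    linarith

theorem block'_of
    (hA : ∀ {N K : ℕ} (_ : K * K ≤ N) (T0 T1 : Finset ℕ) (_ : T0 ⊆ PP N \ P1 N K) (_ : T1 ⊆ P1 N K) (x : ℝ),
      CN N (T0 ∪ T1) x = AN N K T0 x + ∑ p ∈ P1 N K, sg T1 p * ap N T0 p x)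
    (h : ℕ) (hh : 1 ≤ h)
    (hF : ∃ c : ℝ, 0 < c ∧ ∃ N0 : ℕ, ∀ N : ℕ, N0 ≤ N →
      4 * c * N ≤ ∑ p ∈ P1 N (KK' h N), (Qf (N / p) : ℝ)) (hR : RieszK (6 * h)) :
    ∃ c : ℝ, 0 < c ∧ ∃ N0 : ℕ, BlockStmt' h c N0 := by
  obtain ⟨c, hc, N1, hF⟩ := hF
  have hhr : (1 : ℝ) ≤ h := by exact_mod_cast hh
  obtain ⟨r, hr⟩ : ∃ r : ℝ, r = 2 * ((6 * h : ℕ) : ℝ) - 1 := ⟨_, rfl⟩
  have hr1 : 1 ≤ r := by rw [hr]; push_cast; linarith
  have hr12 : r ≤ ((12 * h : ℕ) : ℝ) := by rw [hr]; push_cast; linarith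
  refine ⟨Real.sqrt (c / (60 * h * r)) / 8, by positivity, ?_⟩
  have hev : ∀ᶠ N : ℕ in Filter.atTop, 4 ^ (12 * h) + 32 / c + 20 / c + 3840 / c ^ 2 ≤ (N : ℝ) ^ (1 / (300 * h) : ℝ) :=
    ((tendsto_rpow_atTop (by positivity)).comp tendsto_natCast_atTop_atTop).eventually_ge_atTop _
  obtain ⟨N2, hN2⟩ := Filter.eventually_atTop.1 hev
  refine ⟨max (max N1 N2) 1, fun N hN j0 hj0 => ?_⟩
  have hNN1 : N1 ≤ N := le_trans (le_trans (le_max_left _ _) (le_max_left _ _)) hN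
  have hNN2 : N2 ≤ N := le_trans (le_trans (le_max_right _ _) (le_max_left _ _)) hN
  have hN1 : 1 ≤ N := le_trans (le_max_right _ _) hN
  have hB := hN2 N hNN2
  obtain ⟨y, hy⟩ : ∃ y : ℝ, y = (N : ℝ) ^ (1 / (300 * h) : ℝ) := ⟨_, rfl⟩
  rw [← hy] at hB
  have p1 : 0 < 32 / c := by positivity
  have p2 : 0 < 20 / c := by positivity
  have p3 : 0 < 3840 / c ^ 2 := by positivity
  have p4 : (4 : ℝ) ≤ 4 ^ (12 * h) := by
    calc (4 : ℝ) = 4 ^ 1 := by norm_num
      _ ≤ 4 ^ (12 * h) := pow_le_pow_right₀ (by norm_num) (by omega)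
  have h4h : (4 : ℝ) ^ (12 * h) ≤ y := by linarith only [hB, p1, p2, p3]
  have h4 : 4 ≤ y := by linarith only [h4h, p4]
  have hy1 : 1 ≤ y := by linarith only [h4]
  have hy0 : 0 < y := by linarith only [h4]
  obtain ⟨e300, hK5, hK1, hm, hlogeq⟩ := y_facts' hh hy hN1 h4
  have hb1 : 32 ≤ c * y := by
    have : 32 / c ≤ y := by linarith only [hB, p1, p2, p3, p4]
    rw [div_le_iff₀ hc] at this
    linarith only [this]
  have hb2 : 20 ≤ c * y := by linarith only [hb1]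
  have hb3 : 3840 ≤ c ^ 2 * y := by
    have : 3840 / c ^ 2 ≤ y := by linarith only [hB, p1, p2, p3, p4]
    rw [div_le_iff₀ (by positivity)] at this
    linarith only [this]
  have hN0 : (0 : ℝ) < N := by exact_mod_cast hN1
  set K := KK' h N with hK
  set m := mm' h N with hmdef
  obtain ⟨L, hL⟩ : ∃ L : ℝ, L = Real.log N / (60 * h * r) := ⟨_, rfl⟩
  have hlog2' := Real.log_two_gt_d9
  have hlogy : r * (2 * Real.log 2) ≤ Real.log y := by
    have h1 : Real.log ((4 : ℝ) ^ (12 * h)) ≤ Real.log y := Real.log_le_log (by positivity) h4h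
    rw [Real.log_pow] at h1
    have h2 : Real.log 4 = 2 * Real.log 2 := by
      rw [show (4 : ℝ) = 2 ^ 2 by norm_num, Real.log_pow]
      norm_num
    rw [h2] at h1
    have h3 : r * (2 * Real.log 2) ≤ ((12 * h : ℕ) : ℝ) * (2 * Real.log 2) :=
      mul_le_mul_of_nonneg_right hr12 (by linarith only [hlog2'])
    linarith only [h1, h3]
  have hrL : r * L = 5 * Real.log y := by
    rw [hL, hlogeq]
    field_simp
    ring
  have hL10 : 10 * Real.log 2 ≤ L := by
    have h1 : r * (10 * Real.log 2) ≤ r * L := by rw [hrL]; linarith only [hlogy]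
    exact le_of_mul_le_mul_left h1 (by linarith only [hr1])
  have hLpos : 0 < L := by linarith only [hL10, hlog2']
  have hr0 : 0 < r := by linarith only [hr1]
  have hrLpos : 0 < r * L := by positivity
  have hL5 : r * L ≤ 5 * y := by
    rw [hrL]
    have := Real.log_le_sub_one_of_pos hy0
    linarith only [this]
  have hexp : Real.exp (r * L) = y ^ 5 := by
    rw [hrL, ← Real.exp_log hy0, ← Real.exp_nat_mul, Real.log_exp]
    norm_num
  have hlogpos : 0 < Real.log N := by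
    rw [hlogeq]
    have : 0 < Real.log y := Real.log_pos (by linarith only [h4])
    positivity
  have hK0 : (0 : ℝ) < K := by exact_mod_cast hK1
  have h300 : 300 ≤ 300 * h := by omega
  have hKK : K * K ≤ N := by
    have h1 : (K : ℝ) * K ≤ N := by
      calc (K : ℝ) * K ≤ y ^ 5 * y ^ 5 := mul_le_mul hK5 hK5 hK0.le (by positivity)
        _ = y ^ 10 := by ring
        _ ≤ y ^ (300 * h) := pow_le_pow_right₀ hy1 (by omega)
        _ = N := e300
    exact_mod_cast h1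
  have hsub : P1 N K ⊆ PP N := Finset.filter_subset _ _
  have hun : PP N = (PP N \ P1 N K) ∪ P1 N K := (Finset.sdiff_union_of_subset hsub).symm
  have hdis : Disjoint (PP N \ P1 N K) (P1 N K) := Finset.sdiff_disjoint
  have hm0 : (0 : ℝ) < m := lt_of_lt_of_le (by positivity) hm
  set J : ℕ := 4 * N with hJ
  have hJN : (J : ℝ) = 4 * N := by rw [hJ]; push_cast; ring
  rw [hun]
  refine pr_split_le hdis _ _ fun T0 hT0 => ?_
  set a : ℕ → ℕ → ℝ := fun p j => ap N T0 p ((j : ℝ) / J) with ha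
  set s : ℕ → ℝ := fun j => if 0 ≤ AN N K T0 ((j : ℝ) / J) then 1 else -1 with hs
  have hs2 : ∀ j, s j ^ 2 = 1 := by
    intro j
    rw [hs]
    simp only
    split_ifs <;> norm_num
  -- the good set
  set G := (Ico j0 (j0 + m)).filter (fun j => c * N ≤ ∑ p ∈ P1 N K, a p j ^ 2) with hG
  have hcard : (P1 N K).card ≤ N := by
    refine (Finset.card_le_card (hsub.trans (Finset.filter_subset _ _))).trans ?_
    rw [Nat.card_Icc]
    omega
  have hcardr : ((P1 N K).card : ℝ) ≤ N := by exact_mod_cast hcard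
  have hlow : 2 * c * N * m - 2 * N * K ^ 3 ≤ ∑ j ∈ Ico j0 (j0 + m), ∑ p ∈ P1 N K, a p j ^ 2 := by
    rw [Finset.sum_comm]
    have h1 : ∑ p ∈ P1 N K, ((m : ℝ) / 2 * Qf (N / p) - K ^ 3 * J / (2 * N)) ≤
        ∑ p ∈ P1 N K, ∑ j ∈ Ico j0 (j0 + m), a p j ^ 2 :=
      Finset.sum_le_sum fun p hp => ap_arc (le_of_eq rfl) hN1 T0 hp j0 m
    refine le_trans ?_ h1
    rw [Finset.sum_sub_distrib, ← Finset.mul_sum, Finset.sum_const, nsmul_eq_mul]
    have h2 := hF N hNN1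
    have h3 : (K : ℝ) ^ 3 * J / (2 * N) = 2 * K ^ 3 := by
      rw [hJN]
      field_simp
      ring
    rw [h3]
    have h4 : (m : ℝ) / 2 * (4 * c * N) ≤ (m : ℝ) / 2 * ∑ p ∈ P1 N K, (Qf (N / p) : ℝ) :=
      mul_le_mul_of_nonneg_left h2 (by positivity)
    have h5 : ((P1 N K).card : ℝ) * (2 * K ^ 3) ≤ N * (2 * K ^ 3) :=
      mul_le_mul_of_nonneg_right hcardr (by positivity)
    linarith only [h4, h5]
  have hup : ∑ j ∈ Ico j0 (j0 + m), ∑ p ∈ P1 N K, a p j ^ 2 ≤ G.card * (N * K ^ 2) + m * (c * N) := by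
    have h1 : ∀ j ∈ Ico j0 (j0 + m), ∑ p ∈ P1 N K, a p j ^ 2 ≤
        (if c * N ≤ ∑ p ∈ P1 N K, a p j ^ 2 then (N : ℝ) * K ^ 2 else 0) + c * N := by
      intro j _
      split_ifs with h
      · have h2 : ∑ p ∈ P1 N K, a p j ^ 2 ≤ ∑ p ∈ P1 N K, (K : ℝ) ^ 2 := by
          refine Finset.sum_le_sum fun p hp => ?_
          have := ap_abs T0 hp ((j : ℝ) / J)
          exact sq_le_sq' (neg_le_of_abs_le this) (le_of_abs_le this)
        rw [Finset.sum_const, nsmul_eq_mul] at h2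
        have h3 : ((P1 N K).card : ℝ) * K ^ 2 ≤ N * K ^ 2 := mul_le_mul_of_nonneg_right hcardr (by positivity)
        have h4 : 0 < c * N := by positivity
        linarith only [h2, h3, h4]
      · push Not at h
        linarith only [h]
    refine (Finset.sum_le_sum h1).trans (le_of_eq ?_)
    rw [Finset.sum_add_distrib, Finset.sum_const, nsmul_eq_mul, Nat.card_Ico, ← Finset.sum_filter, Finset.sum_const,
      nsmul_eq_mul]
    congr 2
    congr 1
    omega
  have hm3 : 2 * (K : ℝ) ^ 3 ≤ c / 2 * m := by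
    have h1 : (K : ℝ) ^ 3 ≤ y ^ 15 := by
      calc (K : ℝ) ^ 3 ≤ (y ^ 5) ^ 3 := pow_le_pow_left₀ hK0.le hK5 3
        _ = y ^ 15 := by ring
    have h2 : 32 * y ^ 15 ≤ c * y ^ 300 := by
      calc 32 * y ^ 15 ≤ (c * y) * y ^ 15 := mul_le_mul_of_nonneg_right hb1 (by positivity)
        _ = c * y ^ 16 := by ring
        _ ≤ c * y ^ 300 := mul_le_mul_of_nonneg_left (pow_le_pow_right₀ hy1 (by norm_num)) hc.le
    have h3 : c / 2 * (y ^ 300 / 8) ≤ c / 2 * m := mul_le_mul_of_nonneg_left hm (by positivity)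
    linarith only [h1, h2, h3]
  have hGc : c * m / (2 * K ^ 2) ≤ (G.card : ℝ) := by
    rw [div_le_iff₀ (by positivity)]
    have h1 := hlow.trans hup
    have h2 : (2 : ℝ) * N * K ^ 3 ≤ N * (c / 2 * m) := by
      have := mul_le_mul_of_nonneg_left hm3 hN0.le
      linarith only [this]
    have h3 : (N : ℝ) * (c * m) ≤ N * (G.card * (2 * K ^ 2)) := by linarith only [h1, h2]
    exact le_of_mul_le_mul_left h3 hN0
  have hGpos : 0 < c * m / (2 * K ^ 2) := by positivity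
  have hGne : G.Nonempty := by
    rw [← Finset.card_pos]
    have : (0 : ℝ) < G.card := lt_of_lt_of_le hGpos hGc
    exact_mod_cast this
  have hKL : 4 * ((2 * ((6 * h : ℕ) : ℝ) - 1) * (L * (K : ℝ) ^ 2)) ≤ c * N := by
    rw [← hr]
    have h1 : (K : ℝ) ^ 2 ≤ y ^ 10 := by
      calc (K : ℝ) ^ 2 ≤ (y ^ 5) ^ 2 := pow_le_pow_left₀ hK0.le hK5 2
        _ = y ^ 10 := by ring
    have h2 : r * L * (K : ℝ) ^ 2 ≤ 5 * y * y ^ 10 := mul_le_mul hL5 h1 (by positivity) (by positivity)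
    have h3 : 20 * y ^ 11 ≤ c * N := by
      calc 20 * y ^ 11 ≤ (c * y) * y ^ 11 := mul_le_mul_of_nonneg_right hb2 (by positivity)
        _ = c * y ^ 12 := by ring
        _ ≤ c * y ^ (300 * h) := mul_le_mul_of_nonneg_left (pow_le_pow_right₀ hy1 (by omega)) hc.le
        _ = c * N := by rw [e300]
    have h4 : 5 * y * y ^ 10 = 5 * y ^ 11 := by ring
    linarith only [h2, h3, h4]
  have hmain := hR (P1 N K) a J (Ico j0 (j0 + m))
    (by intro j hj; rw [Finset.mem_Ico] at hj; rw [Finset.mem_range]; omega) s hs2 K (c * N) L hK0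
    (by positivity) (by linarith only [hL10, hlog2']) (fun p hp j => ap_abs T0 hp _) hKL
    (fun p hp p' hp' hne => ap_orth hKK (le_of_eq rfl) hN1 T0 hp hp' hne)
    (fun p hp => ap_norm (le_of_eq rfl) hN1 T0 hp) hGne
  refine (pr_mono ?_).trans (hmain.trans ?_)
  · -- inclusion of events
    intro T1 hT1 hall j hj
    have h1 := hall j hj
    rw [hA hKK T0 T1 hT0 hT1] at h1
    have h2 : s j * ∑ p ∈ P1 N K, sg T1 p * a p j ≤
        |AN N K T0 ((j : ℝ) / J) + ∑ p ∈ P1 N K, sg T1 p * ap N T0 p ((j : ℝ) / J)| := by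
      set B := ∑ p ∈ P1 N K, sg T1 p * ap N T0 p ((j : ℝ) / J) with hBdef
      rw [hs]
      simp only
      split_ifs with h
      · have := le_abs_self (AN N K T0 ((j : ℝ) / J) + B)
        linarith only [this, h]
      · push Not at h
        have := neg_abs_le (AN N K T0 ((j : ℝ) / J) + B)
        linarith only [this, h]
    refine lt_of_le_of_lt h2 (lt_of_lt_of_le h1 ?_)
    have h3 : L / 8 ≤ L / 4 - Real.log 2 := by linarith only [hL10, hlog2']
    refine le_trans ?_ (mul_le_mul_of_nonneg_right h3 (Real.sqrt_nonneg _))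
    have h5 : Real.sqrt (c / (60 * h * r)) / 8 * Real.sqrt (N * Real.log N) = Real.sqrt (c * N * L) / 8 := by
      rw [div_mul_eq_mul_div, ← Real.sqrt_mul (by positivity)]
      congr 2
      rw [hL]
      field_simp
    have h6 : L / 8 * Real.sqrt (c * N / L) = Real.sqrt (c * N * L) / 8 := by
      have h7 : c * N * L = c * N / L * L ^ 2 := by field_simp
      rw [h7, Real.sqrt_mul (by positivity), Real.sqrt_sq hLpos.le]
      ring
    rw [h5, h6]
  · -- numerics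
    rw [← hr]
    have hbase : 2 * (J : ℝ) * K * (L / (c * N)) * r * (1 + r * L * Real.exp (r * L)) / (G.card : ℝ) ≤ 1 / y ^ 150 := by
      have h1 : 2 * (J : ℝ) * K * (L / (c * N)) * r * (1 + r * L * Real.exp (r * L)) / (G.card : ℝ) ≤
          2 * (J : ℝ) * K * (L / (c * N)) * r * (1 + r * L * Real.exp (r * L)) / (c * m / (2 * K ^ 2)) := by
        apply div_le_div_of_nonneg_left _ hGpos hGc
        have := Real.exp_pos (r * L)
        positivity
      refine h1.trans ?_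
      rw [hexp, hJN]
      have h2 : 2 * (4 * (N : ℝ)) * K * (L / (c * N)) * r * (1 + r * L * y ^ 5) / (c * m / (2 * K ^ 2)) =
          16 * K ^ 3 * (r * L) * (1 + r * L * y ^ 5) / (c ^ 2 * m) := by
        field_simp
        ring
      rw [h2, div_le_div_iff₀ (by positivity) (by positivity), one_mul]
      have h3 : (K : ℝ) ^ 3 ≤ y ^ 15 := by
        calc (K : ℝ) ^ 3 ≤ (y ^ 5) ^ 3 := pow_le_pow_left₀ hK0.le hK5 3
          _ = y ^ 15 := by ring
      have h4 : 1 + r * L * y ^ 5 ≤ 6 * y ^ 6 := by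
        have h5 : r * L * y ^ 5 ≤ 5 * y * y ^ 5 := mul_le_mul_of_nonneg_right hL5 (by positivity)
        have h6 : (1 : ℝ) ≤ y ^ 6 := one_le_pow₀ hy1
        have h7 : 5 * y * y ^ 5 = 5 * y ^ 6 := by ring
        linarith only [h5, h6, h7]
      have h5 : 16 * (K : ℝ) ^ 3 * (r * L) * (1 + r * L * y ^ 5) ≤ 16 * y ^ 15 * (5 * y) * (6 * y ^ 6) := by
        apply mul_le_mul _ h4 (by positivity) (by positivity)
        apply mul_le_mul _ hL5 hrLpos.le (by positivity)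
        linarith only [h3]
      have h6 : 16 * (K : ℝ) ^ 3 * (r * L) * (1 + r * L * y ^ 5) * y ^ 150 ≤
          16 * y ^ 15 * (5 * y) * (6 * y ^ 6) * y ^ 150 :=
        mul_le_mul_of_nonneg_right h5 (by positivity)
      have h7 : 16 * y ^ 15 * (5 * y) * (6 * y ^ 6) * y ^ 150 = 480 * y ^ 172 := by ring
      have h8 : 480 * y ^ 172 ≤ c ^ 2 * (y ^ 300 / 8) := by
        have : 3840 * y ^ 172 ≤ c ^ 2 * y * y ^ 172 := mul_le_mul_of_nonneg_right hb3 (by positivity)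
        have h9 : c ^ 2 * y * y ^ 172 = c ^ 2 * y ^ 173 := by ring
        have h10 : c ^ 2 * y ^ 173 ≤ c ^ 2 * y ^ 300 :=
          mul_le_mul_of_nonneg_left (pow_le_pow_right₀ hy1 (by norm_num)) (by positivity)
        linarith only [this, h9, h10]
      have h9 : c ^ 2 * (y ^ 300 / 8) ≤ c ^ 2 * m := mul_le_mul_of_nonneg_left hm (by positivity)
      linarith only [h6, h7, h8, h9]
    have hbase0 : 0 ≤ 2 * (J : ℝ) * K * (L / (c * N)) * r * (1 + r * L * Real.exp (r * L)) / (G.card : ℝ) := by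
      have := Real.exp_pos (r * L)
      exact div_nonneg (by positivity) (Nat.cast_nonneg _)
    refine (pow_le_pow_left₀ hbase0 hbase (6 * h)).trans (le_of_eq ?_)
    rw [div_pow, one_pow, ← e300, ← pow_mul, ← pow_mul]
    have hex : 150 * (6 * h) = 300 * h * 3 := by omega
    rw [hex]

end Pool.Agent.Helper11.RL
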