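import Pool.Agent.Helper96.RL.Orth
import Pool.Agent.Helper11.RL.BC
import Pool.Agent.Helper11.RL.G

/-!
# Project RL (MP_b6b996_nt), block H: one block of grid points
-/

set_option autoImplicit false

namespace Pool.Agent.Helper11.RL

open Finset Pool.Agent.Helper5.RM

/-- powers of `y = N^(1/300)` -/
lemma y_pow {N : ℕ} (hN : 1 ≤ N) (k : ℕ) : ((N : ℝ) ^ (1 / 300 : ℝ)) ^ k = (N : ℝ) ^ ((k : ℝ) / 300) := by
  rw [← Real.rpow_natCast, ← Real.rpow_mul (by positivity)]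
  congr 1
  ring

lemma y_facts {N : ℕ} {y : ℝ} (hy : y = (N : ℝ) ^ (1 / 300 : ℝ)) (hN : 1 ≤ N) (h4 : 4 ≤ y) :
    y ^ 300 = N ∧ (KK N : ℝ) ≤ y ^ 5 ∧ 1 ≤ KK N ∧ y ^ 240 / 8 ≤ (mm N : ℝ) ∧ Real.log N ≤ 300 * y ∧
      600 * Real.log 2 ≤ Real.log N ∧ Real.exp (Real.log N / 60) = y ^ 5 ∧
      (N : ℝ) ^ (-(36 / 50) : ℝ) = 1 / y ^ 216 := by
  have hN0 : (0 : ℝ) < N := by exact_mod_cast hN
  have hN1 : (1 : ℝ) ≤ N := by exact_mod_cast hN
  have e300 : y ^ 300 = N := by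
    rw [hy, y_pow hN]
    norm_num
  have e5 : y ^ 5 = (N : ℝ) ^ (1 / 60 : ℝ) := by
    rw [hy, y_pow hN]
    norm_num
  have e240 : y ^ 240 = (N : ℝ) ^ (4 / 5 : ℝ) := by
    rw [hy, y_pow hN]
    norm_num
  have e216 : y ^ 216 = (N : ℝ) ^ (36 / 50 : ℝ) := by
    rw [hy, y_pow hN]
    norm_num
  have hlog : Real.log N = 300 * Real.log y := by
    rw [← e300, Real.log_pow]
    norm_num
  have hy0 : 0 < y := by linarith
  refine ⟨e300, ?_, ?_, ?_, ?_, ?_, ?_, ?_⟩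
  · rw [e5]
    exact Nat.floor_le (by positivity)
  · unfold KK
    apply Nat.le_floor
    push_cast
    exact Real.one_le_rpow hN1 (by norm_num)
  · have h1 : (N : ℝ) ^ (4 / 5 : ℝ) / 4 < (mm N : ℝ) + 1 := Nat.lt_floor_add_one _
    rw [← e240] at h1
    have h2 : (8 : ℝ) ≤ y ^ 240 := by
      have : (4 : ℝ) ^ 240 ≤ y ^ 240 := pow_le_pow_left₀ (by norm_num) h4 240
      refine le_trans ?_ this
      norm_num
    linarith
  · rw [hlog]
    have := Real.log_le_sub_one_of_pos hy0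
    linarith
  · rw [hlog]
    have h1 : Real.log 4 ≤ Real.log y := Real.log_le_log (by norm_num) h4
    have h2 : Real.log 4 = 2 * Real.log 2 := by
      rw [show (4 : ℝ) = 2 ^ 2 by norm_num, Real.log_pow]
      norm_num
    linarith
  · rw [e5, Real.rpow_def_of_pos hN0]
    congr 1
    ring
  · rw [e216, Real.rpow_neg hN0.le, one_div]

theorem block_of
    (hA : ∀ {N K : ℕ} (_ : K * K ≤ N) (T0 T1 : Finset ℕ) (_ : T0 ⊆ PP N \ P1 N K) (_ : T1 ⊆ P1 N K) (x : ℝ),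
      CN N (T0 ∪ T1) x = AN N K T0 x + ∑ p ∈ P1 N K, sg T1 p * ap N T0 p x)
    (hF : ∃ c : ℝ, 0 < c ∧ ∃ N0 : ℕ, ∀ N : ℕ, N0 ≤ N →
      4 * c * N ≤ ∑ p ∈ P1 N (KK N), (Qf (N / p) : ℝ)) :
    ∃ c : ℝ, 0 < c ∧ ∃ N0 : ℕ, ∀ N : ℕ, N0 ≤ N → ∀ j0 : ℕ, j0 + mm N ≤ 4 * N →
    pr (PP N) (fun T => ∀ j ∈ Ico j0 (j0 + mm N),
      |CN N T ((j : ℝ) / (4 * N : ℕ))| < c * Real.sqrt (N * Real.log N)) ≤ (N : ℝ) ^ (-(36 / 50) : ℝ) := by
  obtain ⟨c, hc, N1, hF⟩ := hF
  refine ⟨Real.sqrt (c / 60) / 8, by positivity, ?_⟩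
  have hev : ∀ᶠ N : ℕ in Filter.atTop, 4 + 32 / c + 20 / c + 3840 / c ^ 2 ≤ (N : ℝ) ^ (1 / 300 : ℝ) :=
    ((tendsto_rpow_atTop (by norm_num)).comp tendsto_natCast_atTop_atTop).eventually_ge_atTop _
  obtain ⟨N2, hN2⟩ := Filter.eventually_atTop.1 hev
  refine ⟨max (max N1 N2) 1, fun N hN j0 hj0 => ?_⟩
  have hNN1 : N1 ≤ N := le_trans (le_trans (le_max_left _ _) (le_max_left _ _)) hN
  have hNN2 : N2 ≤ N := le_trans (le_trans (le_max_right _ _) (le_max_left _ _)) hN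
  have hN1 : 1 ≤ N := le_trans (le_max_right _ _) hN
  have hB := hN2 N hNN2
  obtain ⟨y, hy⟩ : ∃ y : ℝ, y = (N : ℝ) ^ (1 / 300 : ℝ) := ⟨_, rfl⟩
  rw [← hy] at hB
  have p1 : 0 < 32 / c := by positivity
  have p2 : 0 < 20 / c := by positivity
  have p3 : 0 < 3840 / c ^ 2 := by positivity
  have h4 : 4 ≤ y := by linarith only [hB, p1, p2, p3]
  have hy1 : 1 ≤ y := by linarith only [h4]
  have hy0 : 0 < y := by linarith only [h4]
  obtain ⟨e300, hK5, hK1, hm, hlog1, hlog2, hexp, h216⟩ := y_facts hy hN1 h4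
  have hb1 : 32 ≤ c * y := by
    have : 32 / c ≤ y := by linarith only [hB, p1, p2, p3]
    rw [div_le_iff₀ hc] at this
    linarith only [this]
  have hb2 : 20 ≤ c * y := by linarith only [hb1]
  have hb3 : 3840 ≤ c ^ 2 * y := by
    have : 3840 / c ^ 2 ≤ y := by linarith only [hB, p1, p2, p3]
    rw [div_le_iff₀ (by positivity)] at this
    linarith only [this]
  have hN0 : (0 : ℝ) < N := by exact_mod_cast hN1
  set K := KK N with hK
  set m := mm N with hmdef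
  set L := Real.log N / 60 with hL
  have hlog2' := Real.log_two_gt_d9
  have hlogpos : 0 < Real.log N := by linarith only [hlog2, hlog2']
  have hL10 : 10 * Real.log 2 ≤ L := by rw [hL]; linarith only [hlog2]
  have hLpos : 0 < L := by linarith only [hL10, hlog2']
  have hL1 : 1 ≤ L := by linarith only [hL10, hlog2']
  have hL5 : L ≤ 5 * y := by rw [hL]; linarith only [hlog1]
  have hK0 : (0 : ℝ) < K := by exact_mod_cast hK1
  have hKK : K * K ≤ N := by
    have h1 : (K : ℝ) * K ≤ N := by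
      calc (K : ℝ) * K ≤ y ^ 5 * y ^ 5 := mul_le_mul hK5 hK5 hK0.le (by positivity)
        _ = y ^ 10 := by ring
        _ ≤ y ^ 300 := pow_le_pow_right₀ hy1 (by norm_num)
        _ = N := e300
    exact_mod_cast h1
  have hsub : P1 N K ⊆ PP N := Finset.filter_subset _ _
  have hun : PP N = (PP N \ P1 N K) ∪ P1 N K := (Finset.sdiff_union_of_subset hsub).symm
  have hdis : Disjoint (PP N \ P1 N K) (P1 N K) := Finset.sdiff_disjoint
  have hm0 : (0 : ℝ) < m := lt_of_lt_of_le (by positivity) hm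
  set J : ℕ := 4 * N with hJ
  have hJN : (J : ℝ) = 4 * N := by rw [hJ]; push_cast; ring
  rw [hun]
  refine pr_split_le hdis _ _ fun T0 hT0 => ?_
  set a : ℕ → ℕ → ℝ := fun p j => ap N T0 p ((j : ℝ) / J) with ha
  set s : ℕ → ℝ := fun j => if 0 ≤ AN N K T0 ((j : ℝ) / J) then 1 else -1 with hs
  have hs2 : ∀ j, s j ^ 2 = 1 := by
    intro j
    rw [hs]
    simp only
    split_ifs <;> norm_num
  -- the good set
  set G := (Ico j0 (j0 + m)).filter (fun j => c * N ≤ ∑ p ∈ P1 N K, a p j ^ 2) with hG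
  have hcard : (P1 N K).card ≤ N := by
    refine (Finset.card_le_card (hsub.trans (Finset.filter_subset _ _))).trans ?_
    rw [Nat.card_Icc]
    omega
  have hcardr : ((P1 N K).card : ℝ) ≤ N := by exact_mod_cast hcard
  have hlow : 2 * c * N * m - 2 * N * K ^ 3 ≤ ∑ j ∈ Ico j0 (j0 + m), ∑ p ∈ P1 N K, a p j ^ 2 := by
    rw [Finset.sum_comm]
    have h1 : ∑ p ∈ P1 N K, ((m : ℝ) / 2 * Qf (N / p) - K ^ 3 * J / (2 * N)) ≤
        ∑ p ∈ P1 N K, ∑ j ∈ Ico j0 (j0 + m), a p j ^ 2 :=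
      Finset.sum_le_sum fun p hp => ap_arc (le_of_eq rfl) hN1 T0 hp j0 m
    refine le_trans ?_ h1
    rw [Finset.sum_sub_distrib, ← Finset.mul_sum, Finset.sum_const, nsmul_eq_mul]
    have h2 := hF N hNN1
    have h3 : (K : ℝ) ^ 3 * J / (2 * N) = 2 * K ^ 3 := by
      rw [hJN]
      field_simp
      ring
    rw [h3]
    have h4 : (m : ℝ) / 2 * (4 * c * N) ≤ (m : ℝ) / 2 * ∑ p ∈ P1 N K, (Qf (N / p) : ℝ) :=
      mul_le_mul_of_nonneg_left h2 (by positivity)
    have h5 : ((P1 N K).card : ℝ) * (2 * K ^ 3) ≤ N * (2 * K ^ 3) :=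
      mul_le_mul_of_nonneg_right hcardr (by positivity)
    linarith only [h4, h5]
  have hup : ∑ j ∈ Ico j0 (j0 + m), ∑ p ∈ P1 N K, a p j ^ 2 ≤ G.card * (N * K ^ 2) + m * (c * N) := by
    have h1 : ∀ j ∈ Ico j0 (j0 + m), ∑ p ∈ P1 N K, a p j ^ 2 ≤
        (if c * N ≤ ∑ p ∈ P1 N K, a p j ^ 2 then (N : ℝ) * K ^ 2 else 0) + c * N := by
      intro j _
      split_ifs with h
      · have h2 : ∑ p ∈ P1 N K, a p j ^ 2 ≤ ∑ p ∈ P1 N K, (K : ℝ) ^ 2 := by
          refine Finset.sum_le_sum fun p hp => ?_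
          have := ap_abs T0 hp ((j : ℝ) / J)
          exact sq_le_sq' (neg_le_of_abs_le this) (le_of_abs_le this)
        rw [Finset.sum_const, nsmul_eq_mul] at h2
        have h3 : ((P1 N K).card : ℝ) * K ^ 2 ≤ N * K ^ 2 := mul_le_mul_of_nonneg_right hcardr (by positivity)
        have h4 : 0 < c * N := by positivity
        linarith only [h2, h3, h4]
      · push Not at h
        linarith only [h]
    refine (Finset.sum_le_sum h1).trans (le_of_eq ?_)
    rw [Finset.sum_add_distrib, Finset.sum_const, nsmul_eq_mul, Nat.card_Ico, ← Finset.sum_filter, Finset.sum_const,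
      nsmul_eq_mul]
    congr 2
    congr 1
    omega
  have hm3 : 2 * (K : ℝ) ^ 3 ≤ c / 2 * m := by
    have h1 : (K : ℝ) ^ 3 ≤ y ^ 15 := by
      calc (K : ℝ) ^ 3 ≤ (y ^ 5) ^ 3 := pow_le_pow_left₀ hK0.le hK5 3
        _ = y ^ 15 := by ring
    have h2 : 32 * y ^ 15 ≤ c * y ^ 240 := by
      calc 32 * y ^ 15 ≤ (c * y) * y ^ 15 := mul_le_mul_of_nonneg_right hb1 (by positivity)
        _ = c * y ^ 16 := by ring
        _ ≤ c * y ^ 240 := mul_le_mul_of_nonneg_left (pow_le_pow_right₀ hy1 (by norm_num)) hc.le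
    have h3 : c / 2 * (y ^ 240 / 8) ≤ c / 2 * m := mul_le_mul_of_nonneg_left hm (by positivity)
    linarith only [h1, h2, h3]
  have hGc : c * m / (2 * K ^ 2) ≤ (G.card : ℝ) := by
    rw [div_le_iff₀ (by positivity)]
    have h1 := hlow.trans hup
    have h2 : (2 : ℝ) * N * K ^ 3 ≤ N * (c / 2 * m) := by
      have := mul_le_mul_of_nonneg_left hm3 hN0.le
      linarith only [this]
    have h3 : (N : ℝ) * (c * m) ≤ N * (G.card * (2 * K ^ 2)) := by linarith only [h1, h2]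
    exact le_of_mul_le_mul_left h3 hN0
  have hGpos : 0 < c * m / (2 * K ^ 2) := by positivity
  have hGne : G.Nonempty := by
    rw [← Finset.card_pos]
    have : (0 : ℝ) < G.card := lt_of_lt_of_le hGpos hGc
    exact_mod_cast this
  have hKL : 4 * (L * (K : ℝ) ^ 2) ≤ c * N := by
    have h1 : (K : ℝ) ^ 2 ≤ y ^ 10 := by
      calc (K : ℝ) ^ 2 ≤ (y ^ 5) ^ 2 := pow_le_pow_left₀ hK0.le hK5 2
        _ = y ^ 10 := by ring
    have h2 : L * (K : ℝ) ^ 2 ≤ 5 * y * y ^ 10 := mul_le_mul hL5 h1 (by positivity) (by positivity)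
    have h3 : 20 * y ^ 11 ≤ c * N := by
      calc 20 * y ^ 11 ≤ (c * y) * y ^ 11 := mul_le_mul_of_nonneg_right hb2 (by positivity)
        _ = c * y ^ 12 := by ring
        _ ≤ c * y ^ 300 := mul_le_mul_of_nonneg_left (pow_le_pow_right₀ hy1 (by norm_num)) hc.le
        _ = c * N := by rw [e300]
    have h4 : 5 * y * y ^ 10 = 5 * y ^ 11 := by ring
    linarith only [h2, h3, h4]
  have hmain := riesz (P1 N K) a J (Ico j0 (j0 + m))
    (by intro j hj; rw [Finset.mem_Ico] at hj; rw [Finset.mem_range]; omega) s hs2 K (c * N) L hK0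
    (by positivity) (by linarith only [hL10, hlog2']) (fun p hp j => ap_abs T0 hp _) hKL
    (fun p hp p' hp' hne => ap_orth hKK (le_of_eq rfl) hN1 T0 hp hp' hne)
    (fun p hp => ap_norm (le_of_eq rfl) hN1 T0 hp) hGne
  refine (pr_mono ?_).trans (hmain.trans ?_)
  · -- inclusion of events
    intro T1 hT1 hall j hj
    have h1 := hall j hj
    rw [hA hKK T0 T1 hT0 hT1] at h1
    have h2 : s j * ∑ p ∈ P1 N K, sg T1 p * a p j ≤
        |AN N K T0 ((j : ℝ) / J) + ∑ p ∈ P1 N K, sg T1 p * ap N T0 p ((j : ℝ) / J)| := by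
      set B := ∑ p ∈ P1 N K, sg T1 p * ap N T0 p ((j : ℝ) / J) with hBdef
      rw [hs]
      simp only
      split_ifs with h
      · have := le_abs_self (AN N K T0 ((j : ℝ) / J) + B)
        linarith only [this, h]
      · push Not at h
        have := neg_abs_le (AN N K T0 ((j : ℝ) / J) + B)
        linarith only [this, h]
    refine lt_of_le_of_lt h2 (lt_of_lt_of_le h1 ?_)
    have h3 : L / 8 ≤ L / 4 - Real.log 2 := by linarith only [hL10, hlog2']
    refine le_trans ?_ (mul_le_mul_of_nonneg_right h3 (Real.sqrt_nonneg _))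
    have h5 : Real.sqrt (c / 60) / 8 * Real.sqrt (N * Real.log N) = Real.sqrt (c * N * L) / 8 := by
      rw [div_mul_eq_mul_div, ← Real.sqrt_mul (by positivity)]
      congr 2
      rw [hL]
      ring
    have h6 : L / 8 * Real.sqrt (c * N / L) = Real.sqrt (c * N * L) / 8 := by
      have h7 : c * N * L = c * N / L * L ^ 2 := by field_simp
      rw [h7, Real.sqrt_mul (by positivity), Real.sqrt_sq hLpos.le]
      ring
    rw [h5, h6]
  · -- numerics
    have h1 : 2 * (J : ℝ) * K * (L / (c * N)) * (1 + L * Real.exp L) / (G.card : ℝ) ≤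
        2 * (J : ℝ) * K * (L / (c * N)) * (1 + L * Real.exp L) / (c * m / (2 * K ^ 2)) := by
      apply div_le_div_of_nonneg_left _ hGpos hGc
      have := Real.exp_pos L
      positivity
    refine h1.trans ?_
    rw [hexp, h216, hJN]
    have h2 : 2 * (4 * (N : ℝ)) * K * (L / (c * N)) * (1 + L * y ^ 5) / (c * m / (2 * K ^ 2)) =
        16 * K ^ 3 * L * (1 + L * y ^ 5) / (c ^ 2 * m) := by
      field_simp
      ring
    rw [h2, div_le_div_iff₀ (by positivity) (by positivity), one_mul]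
    have h3 : (K : ℝ) ^ 3 ≤ y ^ 15 := by
      calc (K : ℝ) ^ 3 ≤ (y ^ 5) ^ 3 := pow_le_pow_left₀ hK0.le hK5 3
        _ = y ^ 15 := by ring
    have h4 : 1 + L * y ^ 5 ≤ 6 * y ^ 6 := by
      have h5 : L * y ^ 5 ≤ 5 * y * y ^ 5 := mul_le_mul_of_nonneg_right hL5 (by positivity)
      have h6 : (1 : ℝ) ≤ y ^ 6 := one_le_pow₀ hy1
      have h7 : 5 * y * y ^ 5 = 5 * y ^ 6 := by ring
      linarith only [h5, h6, h7]
    have h5 : 16 * (K : ℝ) ^ 3 * L * (1 + L * y ^ 5) ≤ 16 * y ^ 15 * (5 * y) * (6 * y ^ 6) := by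
      apply mul_le_mul _ h4 (by positivity) (by positivity)
      apply mul_le_mul _ hL5 hLpos.le (by positivity)
      linarith only [h3]
    have h6 : 16 * (K : ℝ) ^ 3 * L * (1 + L * y ^ 5) * y ^ 216 ≤ 16 * y ^ 15 * (5 * y) * (6 * y ^ 6) * y ^ 216 :=
      mul_le_mul_of_nonneg_right h5 (by positivity)
    have h7 : 16 * y ^ 15 * (5 * y) * (6 * y ^ 6) * y ^ 216 = 480 * y ^ 238 := by ring
    have h8 : 480 * y ^ 238 ≤ c ^ 2 * (y ^ 240 / 8) := by
      have : 3840 * y ^ 238 ≤ c ^ 2 * y * y ^ 238 := mul_le_mul_of_nonneg_right hb3 (by positivity)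
      have h9 : c ^ 2 * y * y ^ 238 = c ^ 2 * y ^ 239 := by ring
      have h10 : c ^ 2 * y ^ 239 ≤ c ^ 2 * y ^ 240 :=
        mul_le_mul_of_nonneg_left (pow_le_pow_right₀ hy1 (by norm_num)) (by positivity)
      linarith only [this, h9, h10]
    have h9 : c ^ 2 * (y ^ 240 / 8) ≤ c ^ 2 * m := mul_le_mul_of_nonneg_left hm (by positivity)
    linarith only [h6, h7, h8, h9]

end Pool.Agent.Helper11.RL
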